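import Pool.Agent.N889.WU.Stm

/-!
# Project WU: sizes of preperiodic points
-/

set_option autoImplicit false

open Polynomial

namespace Pool.Agent.N698.WU.SIZE

open Pool.Agent.N889.WU

universe u

theorem inf {L Γ : Type*} [LinearOrder Γ] (F : L → L) (v : L → Γ) (P : L → Prop)
    (h : ∀ z, P z → P (F z) ∧ v z < v (F z)) (z : L) (hz : P z) :
    ¬ (Set.range fun m : ℕ => F^[m] z).Finite := by
  have hP : ∀ m : ℕ, P (F^[m] z) := by
    intro m
    induction m with
    | zero => exact hz
    | succ m ih => rw [Function.iterate_succ_apply']; exact (h _ ih).1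
  have hmono : StrictMono fun m : ℕ => v (F^[m] z) := by
    refine strictMono_nat_of_lt_succ fun m => ?_
    show v (F^[m] z) < v (F^[m + 1] z)
    rw [Function.iterate_succ_apply']
    exact (h _ (hP m)).2
  have hinj : Function.Injective fun m : ℕ => F^[m] z := by
    intro a b hab
    exact hmono.injective (congrArg v hab)
  exact (Set.infinite_range_of_injective hinj)

variable {k L : Type u} [Field k] [Field L] [Algebra k L]

theorem val_le (A : ValuationSubring L) (hA : ∀ a : k, algebraMap k L a ∈ A) (a : k) :
    A.valuation (algebraMap k L a) ≤ 1 := (A.valuation_le_one_iff _).2 (hA a)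

theorem val_eq (A : ValuationSubring L) (hA : ∀ a : k, algebraMap k L a ∈ A) (a : k) (ha : a ≠ 0) :
    A.valuation (algebraMap k L a) = 1 := by
  refine le_antisymm (val_le A hA a) ?_
  have h1 := val_le A hA a⁻¹
  have h2 : A.valuation (algebraMap k L a) * A.valuation (algebraMap k L a⁻¹) = 1 := by
    rw [← map_mul, ← map_mul, mul_inv_cancel₀ ha, map_one, map_one]
  calc (1 : A.ValueGroup) = A.valuation (algebraMap k L a) * A.valuation (algebraMap k L a⁻¹) := h2.symm
    _ ≤ A.valuation (algebraMap k L a) * 1 := mul_le_mul_right h1 _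
    _ = A.valuation (algebraMap k L a) := mul_one _

theorem small (A : ValuationSubring L) (hA : ∀ a : k, algebraMap k L a ∈ A) (h : k[X]) (z : L)
    (hz : A.valuation z ≤ 1) : A.valuation (aeval z h) ≤ 1 := by
  rw [aeval_eq_sum_range]
  refine Valuation.map_sum_le _ fun i _ => ?_
  rw [Algebra.smul_def, map_mul, map_pow]
  exact mul_le_one' (val_le A hA _) (pow_le_one' hz i)

theorem large (A : ValuationSubring L) (hA : ∀ a : k, algebraMap k L a ∈ A) (h : k[X])
    (hh : h ≠ 0) (z : L) (hz : 1 < A.valuation z) :
    A.valuation (aeval z h) = A.valuation z ^ h.natDegree := by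
  rw [aeval_eq_sum_range, Finset.sum_range_succ]
  have hlead : A.valuation (h.coeff h.natDegree • z ^ h.natDegree) =
      A.valuation z ^ h.natDegree := by
    rw [Algebra.smul_def, map_mul, map_pow, val_eq A hA _ (by simpa using hh), one_mul]
  have hz0 : (0 : A.ValueGroup) < A.valuation z := lt_of_le_of_lt zero_le_one hz
  rw [← hlead]
  refine Valuation.map_add_eq_of_lt_right _ ?_
  rw [hlead]
  refine Valuation.map_sum_lt _ (pow_ne_zero _ hz0.ne') fun i hi => ?_
  rw [Algebra.smul_def, map_mul, map_pow]
  calc A.valuation (algebraMap k L (h.coeff i)) * A.valuation z ^ i ≤ 1 * A.valuation z ^ i :=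
        mul_le_mul_left (val_le A hA _) _
    _ = A.valuation z ^ i := one_mul _
    _ < A.valuation z ^ h.natDegree := pow_lt_pow_right₀ hz (Finset.mem_range.1 hi)

theorem t_SIZE : S_SIZE.{u} := by
  intro p s hp k L _ _ _ h c A hdeg hA z w hz hw
  have hh : h ≠ 0 := by
    rintro rfl
    simp at hdeg
  have hq : 1 ≤ p ^ s := Nat.one_le_pow _ _ hp.out.pos
  set d : ℕ := h.natDegree * p ^ s with hd
  have hd2 : 1 < d := by
    rw [hd]
    nlinarith
  have hbig : ∀ z : L, 1 < A.valuation z →
      A.valuation ((aeval z h) ^ p ^ s) = A.valuation z ^ d := by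
    intro z hz
    rw [map_pow, large A hA h hh z hz, ← pow_mul]
  constructor
  · intro hc
    have hc1 : A.valuation c ≤ 1 := (A.valuation_le_one_iff _).2 hc
    rw [← A.valuation_le_one_iff]
    by_contra hcon
    rw [not_le] at hcon
    refine inf (fm p s h c) A.valuation (fun z => 1 < A.valuation z) ?_ z hcon hz
    intro z hz
    have h1 : 1 < A.valuation z ^ d := one_lt_pow₀ hz (by omega)
    have h2 : A.valuation (fm p s h c z) = A.valuation z ^ d := by
      unfold fm
      rw [← hbig z hz]
      refine Valuation.map_add_eq_of_lt_left _ ?_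
      rw [hbig z hz]
      exact lt_of_le_of_lt hc1 h1
    rw [h2]
    exact ⟨h1, lt_self_pow₀ hz hd2⟩
  · intro hc
    have hc1 : 1 < A.valuation c := by
      rw [← not_le, A.valuation_le_one_iff]
      exact hc
    have hinf : ∀ z : L, A.valuation c < A.valuation z ^ d →
        ¬ (Set.range fun m : ℕ => (fm p s h c)^[m] z).Finite := by
      intro z hz
      refine inf (fm p s h c) A.valuation (fun z => A.valuation c < A.valuation z ^ d) ?_ z hz
      intro z hz
      have hz1 : 1 < A.valuation z := by
        by_contra hcon
        rw [not_lt] at hcon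
        exact absurd (hc1.trans hz) (not_lt.2 (pow_le_one' hcon d))
      have h2 : A.valuation (fm p s h c z) = A.valuation z ^ d := by
        unfold fm
        rw [← hbig z hz1]
        refine Valuation.map_add_eq_of_lt_left _ ?_
        rw [hbig z hz1]
        exact hz
      rw [h2]
      refine ⟨?_, lt_self_pow₀ hz1 hd2⟩
      exact hz.trans (lt_self_pow₀ (hc1.trans hz) hd2)
    have key : ∀ z : L, (Set.range fun m : ℕ => (fm p s h c)^[m] z).Finite →
        A.valuation z ^ d = A.valuation c := by
      intro z hz
      rcases lt_trichotomy (A.valuation z ^ d) (A.valuation c) with h1 | h1 | h1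
      · exfalso
        have h3 : A.valuation ((aeval z h) ^ p ^ s) < A.valuation c := by
          by_cases hz1 : 1 < A.valuation z
          · rw [hbig z hz1]
            exact h1
          · rw [not_lt] at hz1
            rw [map_pow]
            exact lt_of_le_of_lt (pow_le_one' (small A hA h z hz1) _) hc1
        have h2 : A.valuation (fm p s h c z) = A.valuation c := by
          unfold fm
          exact Valuation.map_add_eq_of_lt_right _ h3
        refine hinf (fm p s h c z) ?_ ?_
        · rw [h2]
          exact lt_self_pow₀ hc1 hd2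
        · refine hz.subset ?_
          rintro _ ⟨m, rfl⟩
          exact ⟨m + 1, Function.iterate_succ_apply _ _ _⟩
      · exact h1
      · exact absurd hz (hinf z h1)
    have hz2 := key z hz
    have hw2 := key w hw
    have hzw : A.valuation z = A.valuation w := by
      rw [← pow_left_inj₀ zero_le zero_le (show d ≠ 0 by omega), hz2, hw2]
    have hz1 : 1 < A.valuation z := by
      by_contra hcon
      rw [not_lt] at hcon
      rw [← hz2] at hc1
      exact absurd hc1 (not_lt.2 (pow_le_one' hcon d))
    refine ⟨?_, ?_⟩
    · rw [← A.valuation_le_one_iff, not_le]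
      exact hz1
    · rw [← A.valuation_le_one_iff, map_div₀, hzw, div_self]
      rw [← hzw]
      exact (lt_of_le_of_lt zero_le_one hz1).ne'

end Pool.Agent.N698.WU.SIZE
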